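import Pool.Agent.Lib.MP_69dca4_nt.Windows

set_option autoImplicit false

open Real Filter

namespace Pool.Agent.Lib.MP_69dca4_nt

/-- The exponential sum of the Liouville function. -/
noncomputable def liouvilleSum (N : ℕ) (θ : ℝ) : ℂ :=
  ∑ n ∈ Finset.Icc 1 N, (ArithmeticFunction.liouville n : ℂ) *
    Complex.exp (2 * π * Complex.I * n * θ)

/-- Q1 in its second form: there are no `c > 0` and `N₀` with `m(N) ≥ c √N` for all `N ≥ N₀`. -/
theorem liouville_not_flat :
    ¬ ∃ c : ℝ, 0 < c ∧ ∃ N₀ : ℕ, ∀ N ≥ N₀, ∀ θ : ℝ, c * √N ≤ ‖liouvilleSum N θ‖ := by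
  rintro ⟨c, hc, N₀, h⟩
  obtain ⟨N, hN⟩ := exists_nat_gt (max (2 / c ^ 2) (N₀ : ℝ))
  have h1 : 2 / c ^ 2 < N := lt_of_le_of_lt (le_max_left _ _) hN
  have h2 : N₀ ≤ N := by
    have : (N₀ : ℝ) < N := lt_of_le_of_lt (le_max_right _ _) hN
    exact_mod_cast this.le
  obtain ⟨M, hM1, _, θ, hθ⟩ := main c hc (fun n => (ArithmeticFunction.liouville n : ℂ)) (by
    intro n hn
    rw [ArithmeticFunction.liouville_apply (by omega)]
    simp) N h1
  exact absurd hθ (not_lt.mpr (h M (h2.trans hM1) θ))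

/-- Q1 in its first form: `liminf m(N) / √N = 0` (the liminf is taken in `EReal`-free form: for
every `c > 0` frequently `m(N) / √N < c`, and `m(N) / √N ≥ 0`). -/
theorem liouville_liminf :
    liminf (fun N : ℕ => (⨅ θ : ℝ, ‖liouvilleSum N θ‖) / √N) atTop = 0 := by
  have hnn : ∀ N : ℕ, 0 ≤ (⨅ θ : ℝ, ‖liouvilleSum N θ‖) / √N := by
    intro N
    exact div_nonneg (Real.iInf_nonneg (fun θ => norm_nonneg _)) (Real.sqrt_nonneg _)
  have hfreq : ∀ c : ℝ, 0 < c →
      ∃ᶠ N : ℕ in atTop, (⨅ θ : ℝ, ‖liouvilleSum N θ‖) / √N < c := by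
    intro c hc
    rw [Filter.frequently_atTop]
    intro N₀
    by_contra hcon
    push Not at hcon
    apply liouville_not_flat
    refine ⟨c, hc, max N₀ 1, ?_⟩
    intro N hN θ
    have h1 := hcon N (le_trans (le_max_left _ _) hN)
    have hN1 : (1:ℝ) ≤ N := by exact_mod_cast (le_trans (le_max_right _ _) hN)
    rw [le_div_iff₀ (by positivity)] at h1
    refine h1.trans ?_
    exact ciInf_le ⟨0, by rintro x ⟨t, rfl⟩; exact norm_nonneg _⟩ θ
  apply le_antisymm
  · apply le_of_forall_pos_le_add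
    intro c hc
    rw [zero_add]
    exact Filter.liminf_le_of_frequently_le ((hfreq c hc).mono (fun N h => h.le))
      (Filter.isBoundedUnder_of ⟨0, hnn⟩)
  · apply Filter.le_liminf_of_le
    · refine ⟨1, ?_⟩
      intro a ha
      by_contra hlt
      push Not at hlt
      have h3 : ∃ᶠ N : ℕ in atTop, (⨅ θ : ℝ, ‖liouvilleSum N θ‖) / √N < 1 := hfreq 1 one_pos
      rw [Filter.eventually_map] at ha
      obtain ⟨N, hN1, hN2⟩ := (h3.and_eventually ha).exists
      linarith
    · exact Filter.Eventually.of_forall hnn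

end Pool.Agent.Lib.MP_69dca4_nt
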