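import Pool.Agent.Lib.MP_69dca4_nt.Rouche

set_option autoImplicit false

open Polynomial Metric Real

namespace Pool.Agent.Lib.MP_69dca4_nt

/-- The Mahler measure dominates any lower bound for the modulus on the unit circle. -/
lemma le_mahlerMeasure_of_forall_le (p : ℂ[X]) (m : ℝ) (hm : 0 < m)
    (h : ∀ z : ℂ, ‖z‖ = 1 → m ≤ ‖p.eval z‖) : m ≤ p.mahlerMeasure := by
  have hp : p ≠ 0 := by
    rintro rfl
    have := h 1 (by simp)
    simp at this
    linarith
  have hint : CircleIntegrable (fun z ↦ log ‖p.eval z‖) 0 1 := by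
    rw [circleIntegrable_def]
    exact p.intervalIntegrable_mahlerMeasure
  have h1 : log m ≤ p.logMahlerMeasure := by
    rw [logMahlerMeasure_def]
    rw [← circleAverage_const (log m) (0:ℂ) 1]
    apply circleAverage_mono (by simp) hint
    intro z hz
    exact Real.log_le_log hm (h z (by simpa using hz))
  rw [mahlerMeasure_def_of_ne_zero hp]
  calc m = exp (log m) := (Real.exp_log hm).symm
    _ ≤ _ := Real.exp_le_exp.mpr h1

/-- Mahler measure of `p (r X)` in terms of the roots of `p`. -/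
lemma mahlerMeasure_comp_C_mul_X (p : ℂ[X]) (r : ℝ) (hr : 0 < r) :
    (p.comp (C (r:ℂ) * X)).mahlerMeasure =
      ‖p.leadingCoeff‖ * (p.roots.map (fun a ↦ max r ‖a‖)).prod := by
  have hrc : (r:ℂ) ≠ 0 := by exact_mod_cast hr.ne'
  conv_lhs => rw [(IsAlgClosed.splits p).eq_prod_roots]
  rw [mul_comp, C_comp, mahlerMeasure_mul, mahlerMeasure_const, multiset_prod_comp]
  rw [prod_mahlerMeasure_eq_mahlerMeasure_prod]
  congr 1
  rw [Multiset.map_map, Multiset.map_map]
  congr 1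
  apply Multiset.map_congr rfl
  intro a _
  simp only [Function.comp, sub_comp, X_comp, C_comp]
  have : (C (r:ℂ) * X - C a : ℂ[X]) = C (r:ℂ) * X + C (-a) := by
    simp [sub_eq_add_neg]
  rw [this, mahlerMeasure_C_mul_X_add_C hrc]
  simp [abs_of_pos hr]

open scoped Classical in
lemma prod_max_le (s : Multiset ℂ) (r : ℝ) (hr : 0 < r) (hr1 : r < 1) :
    r ^ (s.countP (fun z => ‖z‖ < 1)) * (s.map (fun a ↦ max 1 ‖a‖)).prod
      ≤ (s.map (fun a ↦ max r ‖a‖)).prod := by
  induction s using Multiset.induction_on with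
  | empty => simp
  | cons a s ih =>
    simp only [Multiset.map_cons, Multiset.prod_cons]
    have hpos : 0 ≤ (s.map (fun a ↦ max 1 ‖a‖)).prod := by
      apply Multiset.prod_nonneg
      intro x hx
      obtain ⟨b, _, rfl⟩ := Multiset.mem_map.mp hx
      positivity
    by_cases hlt : ‖a‖ < 1
    · rw [Multiset.countP_cons_of_pos s hlt, max_eq_left hlt.le, pow_succ, one_mul]
      calc r ^ (s.countP (fun z => ‖z‖ < 1)) * r * (s.map (fun a ↦ max 1 ‖a‖)).prod
          = r * (r ^ (s.countP (fun z => ‖z‖ < 1)) * (s.map (fun a ↦ max 1 ‖a‖)).prod) := by ring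
        _ ≤ max r ‖a‖ * (s.map (fun a ↦ max r ‖a‖)).prod := by
            apply mul_le_mul (le_max_left _ _) ih (by positivity) (by positivity)
    · rw [Multiset.countP_cons_of_neg s hlt]
      have hge : 1 ≤ ‖a‖ := not_lt.mp hlt
      rw [max_eq_right hge, max_eq_right (hr1.le.trans hge)]
      calc r ^ (s.countP (fun z => ‖z‖ < 1)) * (‖a‖ * (s.map (fun a ↦ max 1 ‖a‖)).prod)
          = ‖a‖ * (r ^ (s.countP (fun z => ‖z‖ < 1)) * (s.map (fun a ↦ max 1 ‖a‖)).prod) := by ring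
        _ ≤ ‖a‖ * (s.map (fun a ↦ max r ‖a‖)).prod := by
            apply mul_le_mul_of_nonneg_left ih (norm_nonneg _)

lemma mahlerMeasure_le_comp (p : ℂ[X]) (r : ℝ) (hr : 0 < r) (hr1 : r < 1) :
    r ^ (discCount p) * p.mahlerMeasure ≤ (p.comp (C (r:ℂ) * X)).mahlerMeasure := by
  rw [mahlerMeasure_comp_C_mul_X p r hr, mahlerMeasure_eq_leadingCoeff_mul_prod_roots]
  have := prod_max_le p.roots r hr hr1
  calc r ^ (discCount p) * (‖p.leadingCoeff‖ * (p.roots.map (fun a ↦ max 1 ‖a‖)).prod)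
      = ‖p.leadingCoeff‖ * (r ^ (discCount p) * (p.roots.map (fun a ↦ max 1 ‖a‖)).prod) := by ring
    _ ≤ _ := mul_le_mul_of_nonneg_left this (norm_nonneg _)

/-- Landau's inequality on the circle of radius `r`, for polynomials with bounded coefficients. -/
lemma mahlerMeasure_comp_sq_le (p : ℂ[X]) (hp : ∀ i, ‖p.coeff i‖ ≤ 1)
    (r : ℝ) (hr : 0 < r) (hr1 : r < 1) :
    (p.comp (C (r:ℂ) * X)).mahlerMeasure ^ 2 ≤ 1 / (1 - r ^ 2) := by
  have h1 := mahlerMeasure_le_sqrt_sum_sq_norm_coeff (p.comp (C (r:ℂ) * X))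
  have h0 := (p.comp (C (r:ℂ) * X)).mahlerMeasure_nonneg
  have h2 : ∑ i ∈ (p.comp (C (r:ℂ) * X)).support, ‖(p.comp (C (r:ℂ) * X)).coeff i‖ ^ 2
      ≤ 1 / (1 - r ^ 2) := by
    have hr2 : r ^ 2 < 1 := by nlinarith
    have hsum : Summable (fun i : ℕ => (r ^ 2) ^ i) :=
      summable_geometric_of_lt_one (by positivity) hr2
    calc ∑ i ∈ (p.comp (C (r:ℂ) * X)).support, ‖(p.comp (C (r:ℂ) * X)).coeff i‖ ^ 2
        ≤ ∑ i ∈ (p.comp (C (r:ℂ) * X)).support, (r ^ 2) ^ i := by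
          apply Finset.sum_le_sum
          intro i _
          rw [comp_C_mul_X_coeff, norm_mul, norm_pow]
          have hnr : ‖(r:ℂ)‖ = r := by simp [abs_of_pos hr]
          rw [hnr, mul_pow, ← pow_mul, ← pow_mul, mul_comm i 2]
          have := hp i
          have h4 : ‖p.coeff i‖ ^ 2 ≤ 1 := pow_le_one₀ (norm_nonneg _) this
          calc ‖p.coeff i‖ ^ 2 * r ^ (2 * i) ≤ 1 * r ^ (2 * i) := by
                apply mul_le_mul_of_nonneg_right h4 (by positivity)
            _ = _ := one_mul _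
      _ ≤ ∑' i : ℕ, (r ^ 2) ^ i := hsum.sum_le_tsum _ (fun i _ => by positivity)
      _ = 1 / (1 - r ^ 2) := by
          rw [tsum_geometric_of_lt_one (by positivity) hr2, one_div]
  calc (p.comp (C (r:ℂ) * X)).mahlerMeasure ^ 2
      ≤ (√(∑ i ∈ (p.comp (C (r:ℂ) * X)).support, ‖(p.comp (C (r:ℂ) * X)).coeff i‖ ^ 2)) ^ 2 := by
        apply pow_le_pow_left₀ h0 h1
    _ = ∑ i ∈ (p.comp (C (r:ℂ) * X)).support, ‖(p.comp (C (r:ℂ) * X)).coeff i‖ ^ 2 := by
        rw [Real.sq_sqrt]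
        positivity
    _ ≤ _ := h2

end Pool.Agent.Lib.MP_69dca4_nt
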