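import Mathlib

set_option autoImplicit false

open Polynomial Metric Real

namespace Pool.Agent.Lib.MP_69dca4_nt

open scoped Classical in
/-- Number of roots (with multiplicity) of a complex polynomial in the open unit disc. -/
noncomputable def discCount (p : ℂ[X]) : ℕ := p.roots.countP (fun z => ‖z‖ < 1)

lemma circleIntegral_inv_sub_of_outside {a : ℂ} (ha : 1 < ‖a‖) :
    (∮ z in C(0, 1), (z - a)⁻¹) = 0 := by
  apply Complex.circleIntegral_eq_zero_of_differentiable_on_off_countable zero_le_one
    (s := ∅) Set.countable_empty
  · intro z hz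
    have : z - a ≠ 0 := by
      intro h
      have : z = a := sub_eq_zero.mp h
      rw [this] at hz
      simp at hz
      linarith
    have hc : ContinuousAt (fun w : ℂ => w - a) z := by fun_prop
    exact (hc.inv₀ this).continuousWithinAt
  · intro z hz
    have : z - a ≠ 0 := by
      intro h
      have : z = a := sub_eq_zero.mp h
      rw [this] at hz
      simp at hz
      linarith
    have hd : DifferentiableAt ℂ (fun w : ℂ => w - a) z := by fun_prop
    exact hd.inv this

lemma circleIntegrable_inv_sub {a : ℂ} (ha : ‖a‖ ≠ 1) :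
    CircleIntegrable (fun z => (z - a)⁻¹) 0 1 := by
  apply ContinuousOn.circleIntegrable zero_le_one
  intro z hz
  have : z - a ≠ 0 := by
    intro h
    have h2 : z = a := sub_eq_zero.mp h
    rw [h2] at hz
    simp at hz
    exact ha hz
  have hc : ContinuousAt (fun w : ℂ => w - a) z := by fun_prop
  exact (hc.inv₀ this).continuousWithinAt

open scoped Classical in
lemma circleIntegral_multiset_sum (s : Multiset ℂ) (hs : ∀ a ∈ s, ‖a‖ ≠ 1) :
    CircleIntegrable (fun z => (s.map fun a ↦ 1 / (z - a)).sum) 0 1 ∧
    (∮ z in C(0, 1), (s.map fun a ↦ 1 / (z - a)).sum) =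
      2 * π * Complex.I * (s.countP (fun z => ‖z‖ < 1) : ℕ) := by
  induction s using Multiset.induction_on with
  | empty => simp [circleIntegral]
  | cons a s ih =>
    have ha : ‖a‖ ≠ 1 := hs a (Multiset.mem_cons_self a s)
    have ih' := ih (fun b hb => hs b (Multiset.mem_cons_of_mem hb))
    have h1 : CircleIntegrable (fun z => 1 / (z - a)) 0 1 := by
      simpa [one_div] using circleIntegrable_inv_sub ha
    constructor
    · simp only [Multiset.map_cons, Multiset.sum_cons]
      exact h1.add ih'.1
    · simp only [Multiset.map_cons, Multiset.sum_cons]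
      rw [circleIntegral.integral_add h1 ih'.1, ih'.2]
      by_cases hlt : ‖a‖ < 1
      · rw [Multiset.countP_cons_of_pos s hlt]
        have : (∮ z in C(0, 1), 1 / (z - a)) = 2 * π * Complex.I := by
          simp only [one_div]
          exact circleIntegral.integral_sub_inv_of_mem_ball (by simpa using hlt)
        rw [this]
        push_cast
        ring
      · rw [Multiset.countP_cons_of_neg s hlt]
        have hgt : 1 < ‖a‖ := lt_of_le_of_ne (not_lt.mp hlt) (Ne.symm ha)
        have : (∮ z in C(0, 1), 1 / (z - a)) = 0 := by
          simp only [one_div]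
          exact circleIntegral_inv_sub_of_outside hgt
        rw [this]
        ring

/-- Argument principle for polynomials on the unit circle. -/
lemma circleIntegral_logDeriv (p : ℂ[X]) (hp : ∀ z : ℂ, ‖z‖ = 1 → p.eval z ≠ 0) :
    CircleIntegrable (fun z => p.derivative.eval z / p.eval z) 0 1 ∧
    (∮ z in C(0, 1), p.derivative.eval z / p.eval z) = 2 * π * Complex.I * (discCount p : ℕ) := by
  have hs : ∀ a ∈ p.roots, ‖a‖ ≠ 1 := by
    intro a ha h1
    exact hp a h1 (by simpa using (Polynomial.isRoot_of_mem_roots ha))
  have key := circleIntegral_multiset_sum p.roots hs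
  have hsph : ∀ z ∈ sphere (0:ℂ) |1|, p.derivative.eval z / p.eval z =
      (p.roots.map fun a ↦ 1 / (z - a)).sum := by
    intro z hz
    have hz1 : ‖z‖ = 1 := by simpa using hz
    exact (IsAlgClosed.splits p).eval_derivative_div_eval_of_ne_zero (hp z hz1)
  constructor
  · exact (circleIntegrable_congr (fun z hz => (hsph z hz))).mpr key.1
  · rw [circleIntegral.integral_congr zero_le_one (g := fun z => (p.roots.map fun a ↦ 1 / (z - a)).sum)]
    · exact key.2
    · intro z hz
      exact hsph z (by simpa using hz)

/-- **Rouche's theorem** for polynomials on the unit circle. -/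
theorem rouche (p q : ℂ[X]) (h : ∀ z : ℂ, ‖z‖ = 1 → ‖q.eval z - p.eval z‖ < ‖p.eval z‖) :
    discCount p = discCount q := by
  have hp : ∀ z : ℂ, ‖z‖ = 1 → p.eval z ≠ 0 := by
    intro z hz h0
    have := h z hz
    rw [h0] at this
    simp at this
    exact absurd this (not_lt.mpr (norm_nonneg _))
  have hq : ∀ z : ℂ, ‖z‖ = 1 → q.eval z ≠ 0 := by
    intro z hz h0
    have := h z hz
    rw [h0] at this
    simp at this
  have Ip := circleIntegral_logDeriv p hp
  have Iq := circleIntegral_logDeriv q hq
  have hdiff : (∮ z in C(0, 1), (q.derivative.eval z / q.eval z - p.derivative.eval z / p.eval z)) = 0 := by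
    apply circleIntegral.integral_eq_zero_of_hasDerivWithinAt zero_le_one
      (f := fun z => Complex.log (q.eval z / p.eval z))
    intro z hz
    have hz1 : ‖z‖ = 1 := by simpa using hz
    have hslit : q.eval z / p.eval z ∈ Complex.slitPlane := by
      have h1 : ‖q.eval z / p.eval z - 1‖ < 1 := by
        have : q.eval z / p.eval z - 1 = (q.eval z - p.eval z) / p.eval z := by
          field_simp [hp z hz1]
        rw [this, norm_div, div_lt_one (norm_pos_iff.mpr (hp z hz1))]
        exact h z hz1
      have h2 : q.eval z / p.eval z = 1 + (q.eval z / p.eval z - 1) := by ring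
      rw [h2]
      exact Complex.mem_slitPlane_of_norm_lt_one h1
    have hd : HasDerivAt (fun z => q.eval z / p.eval z)
        ((q.derivative.eval z * p.eval z - q.eval z * p.derivative.eval z) / (p.eval z)^2) z :=
      (q.hasDerivAt z).div (p.hasDerivAt z) (hp z hz1)
    have hl := hd.clog hslit
    have heq : (q.derivative.eval z * p.eval z - q.eval z * p.derivative.eval z) / (p.eval z)^2
        / (q.eval z / p.eval z) = q.derivative.eval z / q.eval z - p.derivative.eval z / p.eval z := by
      field_simp [hp z hz1, hq z hz1]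
    rw [heq] at hl
    exact hl.hasDerivWithinAt
  rw [circleIntegral.integral_sub Iq.1 Ip.1, Iq.2, Ip.2] at hdiff
  have h2 : (2 * (π:ℂ) * Complex.I) ≠ 0 := by
    simp [Real.pi_ne_zero, Complex.I_ne_zero]
  have h3 : (2 * (π:ℂ) * Complex.I) * ((discCount q : ℂ) - (discCount p : ℂ)) = 0 := by
    rw [mul_sub]; exact hdiff
  have h4 : (discCount q : ℂ) - (discCount p : ℂ) = 0 := by
    rcases mul_eq_zero.mp h3 with h | h
    · exact absurd h h2
    · exact h
  have h5 : (discCount q : ℂ) = (discCount p : ℂ) := sub_eq_zero.mp h4
  exact_mod_cast h5.symm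

end Pool.Agent.Lib.MP_69dca4_nt
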