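import Pool.Agent.Lib.MP_69dca4_nt.Mahler

set_option autoImplicit false

open Polynomial Metric Real

namespace Pool.Agent.Lib.MP_69dca4_nt

/-- `Q f N = ∑_{n < N} f (n+1) X^n`. -/
noncomputable def Q (f : ℕ → ℂ) (N : ℕ) : ℂ[X] :=
  ∑ n ∈ Finset.range N, C (f (n + 1)) * X ^ n

lemma Q_coeff (f : ℕ → ℂ) (N i : ℕ) : (Q f N).coeff i = if i < N then f (i + 1) else 0 := by
  unfold Q
  rw [finsetSum_coeff]
  simp only [coeff_C_mul, coeff_X_pow]
  simp

lemma Q_succ (f : ℕ → ℂ) (N : ℕ) : Q f (N + 1) = Q f N + C (f (N + 1)) * X ^ N := by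
  unfold Q
  rw [Finset.sum_range_succ]

lemma Q_natDegree_lt (f : ℕ → ℂ) (N : ℕ) (hN : 1 ≤ N) : (Q f N).natDegree < N := by
  rw [Nat.lt_iff_le_pred (by omega)]
  rw [natDegree_le_iff_coeff_eq_zero]
  intro i hi
  rw [Q_coeff, if_neg (by omega)]

lemma discCount_lt (f : ℕ → ℂ) (N : ℕ) (hN : 1 ≤ N) : discCount (Q f N) < N := by
  calc discCount (Q f N) ≤ Multiset.card (Q f N).roots := Multiset.countP_le_card _ _
    _ ≤ (Q f N).natDegree := card_roots' _
    _ < N := Q_natDegree_lt f N hN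

lemma Q_eval (f : ℕ → ℂ) (N : ℕ) (θ : ℝ) :
    ∑ n ∈ Finset.Icc 1 N, f n * Complex.exp (2 * π * Complex.I * n * θ) =
      Complex.exp (2 * π * Complex.I * θ) *
        (Q f N).eval (Complex.exp (2 * π * Complex.I * θ)) := by
  induction N with
  | zero => simp [Q]
  | succ N ih =>
    rw [Finset.sum_Icc_succ_top (by omega), ih, Q_succ, eval_add, mul_add]
    congr 1
    simp only [eval_mul, eval_C, eval_pow, eval_X]
    rw [← Complex.exp_nat_mul]
    have : Complex.exp (2 * π * Complex.I * ((N + 1 : ℕ) : ℂ) * θ) =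
        Complex.exp (2 * π * Complex.I * θ) * Complex.exp ((N : ℂ) * (2 * π * Complex.I * θ)) := by
      rw [← Complex.exp_add]
      congr 1
      push_cast
      ring
    rw [this]
    ring

lemma norm_exp_circle (θ : ℝ) : ‖Complex.exp (2 * π * Complex.I * θ)‖ = 1 := by
  have : (2 * π * Complex.I * θ : ℂ) = ((2 * π * θ : ℝ) : ℂ) * Complex.I := by
    push_cast; ring
  rw [this, Complex.norm_exp_ofReal_mul_I]

lemma exists_theta (z : ℂ) (hz : ‖z‖ = 1) : ∃ θ : ℝ, Complex.exp (2 * π * Complex.I * θ) = z := by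
  refine ⟨z.arg / (2 * π), ?_⟩
  have hπ : (π : ℂ) ≠ 0 := by exact_mod_cast Real.pi_ne_zero
  have : (2 * π * Complex.I * ((z.arg / (2 * π) : ℝ) : ℂ) : ℂ) = (z.arg : ℂ) * Complex.I := by
    push_cast
    field_simp
  rw [this]
  have h := Complex.norm_mul_exp_arg_mul_I z
  rw [hz] at h
  simpa using h

/-- Lower bound for the number of zeros inside the disc when the modulus is large on the
whole circle. -/
lemma discCount_ge (p : ℂ[X]) (hp : ∀ i, ‖p.coeff i‖ ≤ 1) (c : ℝ) (hc : 0 < c) (M : ℕ)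
    (hM : 2 / c ^ 2 < M) (h : ∀ z : ℂ, ‖z‖ = 1 → c * √M ≤ ‖p.eval z‖) :
    c ^ 2 * M / 4 ≤ discCount p := by
  have hM0 : (0:ℝ) < M := lt_trans (by positivity) hM
  set k := discCount p with hk
  have hc2 : 0 < c ^ 2 := by positivity
  have hcM : 2 < c ^ 2 * M := by
    rw [div_lt_iff₀ hc2] at hM
    linarith
  -- r^2 = 1 - 2/(c^2 M)
  set x : ℝ := 1 - 2 / (c ^ 2 * M) with hx
  have hy : 0 < 2 / (c ^ 2 * M) := by positivity
  have hy1 : 2 / (c ^ 2 * M) < 1 := by
    rw [div_lt_one (by positivity)]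
    exact hcM
  have hx0 : 0 < x := by rw [hx]; linarith
  have hx1 : x < 1 := by rw [hx]; linarith
  set r : ℝ := √x with hr
  have hr0 : 0 < r := Real.sqrt_pos.mpr hx0
  have hr2 : r ^ 2 = x := Real.sq_sqrt hx0.le
  have hr1 : r < 1 := by
    rw [hr, Real.sqrt_lt' one_pos]
    simpa using hx1
  have h1 := le_mahlerMeasure_of_forall_le p (c * √M) (by positivity) h
  have h2 := mahlerMeasure_le_comp p r hr0 hr1
  have h3 := mahlerMeasure_comp_sq_le p hp r hr0 hr1
  have h4 : (r ^ k * (c * √M)) ^ 2 ≤ 1 / (1 - r ^ 2) := by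
    refine le_trans ?_ h3
    apply pow_le_pow_left₀ (by positivity)
    refine le_trans ?_ h2
    exact mul_le_mul_of_nonneg_left h1 (by positivity)
  have h5 : 1 / (1 - r ^ 2) = c ^ 2 * M / 2 := by
    rw [hr2, hx]
    field_simp
    ring
  rw [h5, mul_pow, mul_pow, Real.sq_sqrt hM0.le, ← pow_mul, mul_comm k 2, pow_mul, hr2] at h4
  have h6 : x ^ k ≤ 1 / 2 := by
    have : x ^ k * (c ^ 2 * M) ≤ (1 / 2) * (c ^ 2 * M) := by linarith
    exact le_of_mul_le_mul_right this (by positivity)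
  -- Bernoulli
  have h7 : 1 + (k : ℝ) * (-(2 / (c ^ 2 * M))) ≤ (1 + (-(2 / (c ^ 2 * M)))) ^ k :=
    one_add_mul_le_pow (by linarith) k
  have h8 : 1 + (-(2 / (c ^ 2 * M))) = x := by rw [hx]; ring
  rw [h8] at h7
  have h9 : (1:ℝ) / 2 ≤ k * (2 / (c ^ 2 * M)) := by linarith
  have h10 : (k:ℝ) * (2 / (c ^ 2 * M)) = (2 * k) / (c ^ 2 * M) := by ring
  rw [h10, le_div_iff₀ (by positivity)] at h9
  linarith

/-- The number of zeros in the disc does not change as long as the modulus stays above `1`. -/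
lemma discCount_const (f : ℕ → ℂ) (hf : ∀ n, 1 ≤ n → ‖f n‖ = 1) (N L : ℕ)
    (h : ∀ M, N ≤ M → M < N + L → ∀ z : ℂ, ‖z‖ = 1 → 1 < ‖(Q f M).eval z‖) :
    discCount (Q f (N + L)) = discCount (Q f N) := by
  induction L with
  | zero => rfl
  | succ L ih =>
    rw [← ih (fun M h1 h2 => h M h1 (by omega))]
    symm
    rw [← add_assoc]
    apply rouche
    intro z hz
    have h1 := h (N + L) (by omega) (by omega) z hz
    rw [Q_succ]
    simp only [eval_add, eval_mul, eval_C, eval_pow, eval_X, add_sub_cancel_left, norm_mul,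
      norm_pow, hz, one_pow, mul_one]
    rw [hf _ (by omega)]
    exact h1

theorem main (c : ℝ) (hc : 0 < c) (f : ℕ → ℂ) (hf : ∀ n, 1 ≤ n → ‖f n‖ = 1) (N : ℕ)
    (hN : 2 / c ^ 2 < N) :
    ∃ M : ℕ, N ≤ M ∧ M ≤ ⌈4 / c ^ 2⌉₊ * N ∧
      ∃ θ : ℝ, ‖∑ n ∈ Finset.Icc 1 M, f n * Complex.exp (2 * π * Complex.I * n * θ)‖
        < c * √M := by
  by_contra hcon
  push Not at hcon
  have hc2 : 0 < c ^ 2 := by positivity
  have hN0 : (0:ℝ) < N := lt_trans (by positivity) hN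
  have hN1 : 1 ≤ N := by exact_mod_cast hN0
  set K := ⌈4 / c ^ 2⌉₊ with hK
  have hKpos : 1 ≤ K := Nat.one_le_ceil_iff.mpr (by positivity)
  have hKN : N ≤ K * N := Nat.le_mul_of_pos_left N hKpos
  have hcN : 2 < c ^ 2 * N := by
    rw [div_lt_iff₀ hc2] at hN
    linarith
  have hflat : ∀ M, N ≤ M → M ≤ K * N → ∀ z : ℂ, ‖z‖ = 1 → c * √M ≤ ‖(Q f M).eval z‖ := by
    intro M h1 h2 z hz
    obtain ⟨θ, rfl⟩ := exists_theta z hz
    have := hcon M h1 h2 θ
    rw [Q_eval, norm_mul, norm_exp_circle, one_mul] at this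
    exact this
  have hgt : ∀ M, N ≤ M → M < N + (K * N - N) → ∀ z : ℂ, ‖z‖ = 1 → 1 < ‖(Q f M).eval z‖ := by
    intro M h1 h2 z hz
    refine lt_of_lt_of_le ?_ (hflat M h1 (by omega) z hz)
    have hM : (N:ℝ) ≤ M := by exact_mod_cast h1
    have h3 : 1 < c ^ 2 * M := by nlinarith
    have h4 : c * √M = √(c ^ 2 * M) := by
      rw [Real.sqrt_mul (by positivity), Real.sqrt_sq hc.le]
    rw [h4]
    rw [Real.lt_sqrt (by norm_num)]
    linarith
  have hconst := discCount_const f hf N (K * N - N) hgt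
  rw [Nat.add_sub_cancel' hKN] at hconst
  have hlt := discCount_lt f N hN1
  have hKNr : ((K * N : ℕ) : ℝ) = K * N := by push_cast; ring
  have hge := discCount_ge (Q f (K * N)) (by
      intro i
      rw [Q_coeff]
      split_ifs
      · exact (hf _ (by omega)).le
      · simp) c hc (K * N) (by
        refine lt_of_lt_of_le hN ?_
        exact_mod_cast hKN) (hflat (K * N) hKN le_rfl)
  rw [hconst, hKNr] at hge
  have hK4 : 4 / c ^ 2 ≤ K := Nat.le_ceil _
  have hK4' : 4 ≤ c ^ 2 * K := by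
    rw [div_le_iff₀ hc2] at hK4
    linarith
  have : (N:ℝ) ≤ c ^ 2 * (K * N) / 4 := by nlinarith
  have h5 : (N:ℝ) ≤ discCount (Q f N) := this.trans hge
  have h6 : N ≤ discCount (Q f N) := by exact_mod_cast h5
  omega

end Pool.Agent.Lib.MP_69dca4_nt
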